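import Pool.Agent.helper52.HY.Spec

/-! # Project hy: (MP_af9036_an): module CNH (the count) -/

set_option autoImplicit false

open Complex Metric Set Filter Topology MeasureTheory
open Pool.Agent.helper98.ILF Pool.Agent.helper16.Multibrot

noncomputable section

namespace HY

theorem CNH (hCLO : CLO_stmt) (hPIG : PIG_stmt) (hCOV : COV_stmt) (hMOB : MOB_stmt) : CNH_stmt := by
  intro n hn r hr l hl
  obtain ⟨η, hη, hclo⟩ := hCLO n hn r hr l hl
  obtain ⟨N₁, hpig⟩ := hPIG η hη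
  obtain ⟨N₂, hcov⟩ := hCOV η hη
  refine ⟨N₂ * N₁, ?_⟩
  intro c hc hdis V φ hφ ι H m hH hrel
  by_contra hcon
  have hcard : N₂ * 2 ^ m * N₁ < ι.card := by
    have h1 : N₂ * 2 ^ m * N₁ = N₂ * N₁ * 2 ^ m := by ring
    rw [h1]
    exact not_le.1 hcon
  obtain ⟨ι', hsub, hN, hclose⟩ := hcov m ι (fun i => H i 0) N₁
    (fun i hi => ⟨(hH i hi).2.2.1, (hH i hi).2.2.2⟩) hcard
  have h0 : (0 : ℂ) ∈ UD := by
    unfold UD
    exact mem_ball_self one_pos
  have hG : ∀ i ∈ ι', DifferentiableOn ℂ (fun x => T (H i 0) (H i x)) UD ∧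
      MapsTo (fun x => T (H i 0) (H i x)) UD UD := by
    intro i hi
    have hU := (hH i (hsub hi)).1
    have ha : H i 0 ∈ UD := hU.map h0
    obtain ⟨h1, -, -, h2, -⟩ := hMOB (H i 0) ha
    exact ⟨h2.comp hU.dif hU.map, fun x hx => (h1 (H i x) (hU.map hx)).1⟩
  obtain ⟨i, hi, k, hk, hik, hx⟩ := hpig ι' (fun i x => T (H i 0) (H i x)) hN hG
  exact hclo c hc hdis V φ hφ (H i) (H k) (k - i) (by omega) (hH i (hsub hi)).1 (hH k (hsub hk)).1
    (hH i (hsub hi)).2.1 (hrel i (hsub hi) k (hsub hk) hik) (hclose i hi k hk) hx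

end HY
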